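import Pool.Agent.Q282.UW.Lin
import Pool.Agent.Q282.UW.Cmb

/-!
# Almost all complete intersections have no Tate classes in common with all smaller varieties, singular or not, in characteristic zero

Let `O = ℤ[t_1, ..., t_M]`, and let `S` be an affine scheme in the affine space over `ℤ` with the coordinates `t_1, ..., t_M`, with a map to
the affine space of dimension `e ≥ 1` which is quasi-finite modulo the primes `p` of a finite set `P`; its function field `K` can be any
finitely generated field of characteristic zero of transcendence degree `e`.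

**The complete intersections.** Let `s ≥ 0` linear subspaces of dimension `g ≤ D / 2` of the projective space of dimension `D + r` be
given by linear equations `l` over `O`, and let the forms `f_{a,j}` span, for `a = 1, ..., r`, the forms of degree `d_a ≥ s + 2 ν - 1` through
them. For `c = (c_{a,j})` in `O` let `V_c` be the complete intersection `{∑_j c_{1,j} f_{1,j} = ... = ∑_j c_{r,j} f_{r,j} = 0}`, a
variety of dimension `D` over `K` with a model over the open set `U_c = {x : Δ(x, c(x)) ≠ 0}` of `S` (for smooth fibres `Δ` is a multiple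
of the discriminant).

**The other varieties.** Let `Y` be any variety over `K` (singular or not, proper or not) with a model over `S`, and let `η p m x j` be
the eigenvalues of Frobenius on the cohomology with compact support `H_c^j(Y_x)` of the fibres over the points `x` of `S` with
coordinates in the field with `p ^ m` elements: at most `β` numbers of absolute value at most `p ^ (m j / 2)` (Deligne). The edge of
the `L`-function of `H_c^j(Y)` modulo `p` is the multiset `Γ p j` of the eigenvalues of weight `j` of Frobenius on the coinvariants of the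
geometric Galois group on `H_c^j(Y)`, multiplied by `p ^ e`: the sum of the traces over the points of degree `m` is the sum of the
`m`-th powers of the numbers in `Γ p j`, up to an error of relative size `p ^ (- m / 2)`.

**The theorem.** For every `δ > 0`, every degree `n`, all `N` and `Q ≥ 1`: outside a set of complete intersections of proportion
`C X Q ^ (-(1 - δ) e N / 2)` of those with coefficients of degree at most `N` whose coefficients are in an interval of a length divisible
by the primes of `P`, the edge of the `L`-function of `H_c^n(V^ν × Y)` modulo `p` is as expected for all varieties `Y` of any given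
set of `X` varieties at the same time and for all primes `p` of `P` outside a set with a product smaller than `Q` (this set can depend
on `Y`; it is empty for `Q = 2`, and it is not equal to `P` if `Q` is the product of the primes of `P`). As expected means: it has the
same number of elements as the multiset of the numbers `p ^ a γ` with `γ` in `Γ p (n - 2 a)`, each `T_a` times, where `T_a` is the
number of the products of codimension `a` on `V^ν` of hyperplane classes, diagonals and, if `2 g = D`, the given subspaces; it has no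
number of a given finite set `R p` with a larger multiplicity; and it is equal to this multiset if it is integral. 

**The invariant classes.** The etale homology `H_{2j}(X, Q_l(j))` of a variety `X` is the dual of `H_c^{2j}(X, Q_l(j))`; its invariants
under the Galois group of `K`, the target of the cycle class map `c_j`, have a dimension of at most the multiplicity of `p ^ (j + e)` in the
edge of the `L`-function of `H_c^{2j}(X)` modulo `p`, for all primes `p` in `P` (for which the model of `X` over `S` is good). So for almost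
all `V_c` and all `Y` of the given set at the same time the target of `c_j` for `V_c^ν × Y` is at most as large as the sum of the
bounds of this kind for `Y` in the degrees `2 (j - a)`, each taken `T_a` times; if these are given by the cycles of dimension `j - a` on
`Y`, the map `c_j` is surjective for `V_c^ν × Y`.

Proof. The theorem in characteristic `p` (second moments over the box, power sums in windows, the theorem of Turan), and the independence
of the reductions of a random family of polynomials modulo different primes.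
-/

set_option autoImplicit false

namespace Pool.Agent.Results.MP_40dc3c_ag.AlmostAllTimesSingular

open Finset MvPolynomial
open scoped LinearAlgebra.Projectivization

instance prime_fact (p : Nat.Primes) : Fact (p : ℕ).Prime := ⟨p.2⟩

/-- The ring `ℤ[t_1, ..., t_M]`. -/
abbrev Coeffs (M : ℕ) : Type := MvPolynomial (Fin M) ℤ

/-- The values of polynomials in `t_1, ..., t_M` with integer coefficients at the point `x` with coordinates in the ring `F`. -/
noncomputable def value {F : Type} [CommRing F] {M : ℕ} (x : Fin M → F) : Coeffs M →+* F := eval₂Hom (Int.castRingHom F) x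

/-- The point `x` belongs to the affine scheme `S` with the equations `G`. -/
def InS {F : Type} [CommRing F] {M : ℕ} (G : Set (Coeffs M)) (x : Fin M → F) : Prop := ∀ g ∈ G, value x g = 0

/-- The fibres of the map from `S` modulo `p` to the affine space of dimension `e` with the components `π` have at most `C` points, with
coordinates in any finite field of characteristic `p`. -/
def IsBase (p : ℕ) [Fact p.Prime] {M e : ℕ} (G : Set (Coeffs M)) (π : Fin e → Coeffs M) (C : ℕ) : Prop :=
  ∀ m, 1 ≤ m → ∀ y : Fin e → GaloisField p m, Nat.card {x : Fin M → GaloisField p m // InS G x ∧ ∀ i, value x (π i) = y i} ≤ C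

/-- The point `x` belongs to `S`, and the polynomial `Δ(x, .)` in the parameters is not zero. -/
def Regular {F : Type} [CommRing F] {M : ℕ} {T : Type} (G : Set (Coeffs M)) (Δ : MvPolynomial T (Coeffs M)) (x : Fin M → F) : Prop :=
  InS G x ∧ map (value x) Δ ≠ 0

/-- The point `x` belongs to the open set `U_c` of `S`: the polynomial `Δ` does not vanish at `(x, c(x))`. -/
def InU {F : Type} [CommRing F] {M : ℕ} {T : Type} (G : Set (Coeffs M)) (Δ : MvPolynomial T (Coeffs M)) (c : T → Coeffs M)
    (x : Fin M → F) : Prop := InS G x ∧ eval₂ (value x) (fun s => value x (c s)) Δ ≠ 0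

/-- The equations of a union of linear subspaces: the products of one equation `∑ v_j X_j` of each of them (for `s = 0` the only such
product is `1`, and the union is empty). -/
noncomputable def unionEquations {O : Type} [CommRing O] {n s c : ℕ} (l : Fin s → Fin c → Fin (n + 1) → O) (φ : Fin s → Fin c) :
    MvPolynomial (Fin (n + 1)) O := ∏ i, ∑ j, C (l i (φ i) j) * X j

/-- The forms `f j` span the linear system of the hypersurfaces of degree `d` through the union of the linear subspaces `l`: they have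
degree `d`, vanish on this union (belong to the radical of the ideal `I` generated by the products of equations), and every form of
degree `d` in the ideal `I` is a combination of them. -/
structure Spans {O : Type} [CommRing O] {n s c : ℕ} {ι : Type} [Fintype ι] (l : Fin s → Fin c → Fin (n + 1) → O) (d : ℕ)
    (f : ι → MvPolynomial (Fin (n + 1)) O) : Prop where
  hom : ∀ j, (f j).IsHomogeneous d
  mem : ∀ j, f j ∈ (Ideal.span (Set.range (unionEquations l))).radical
  gen : ∀ H : MvPolynomial (Fin (n + 1)) O, H.IsHomogeneous d → H ∈ Ideal.span (Set.range (unionEquations l)) →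
    ∃ c : ι → O, H = ∑ j, C (c j) * f j

/-- Over the point `x` the linear equations `l i 0, ..., l i (c - 1)` are independent for every `i`, and the linear subspaces of
codimension `c` that they define for different `i` are different. -/
def AreSubspaces {F : Type} [Field F] {M n s c : ℕ} (x : Fin M → F) (l : Fin s → Fin c → Fin (n + 1) → Coeffs M) : Prop :=
  (∀ i, LinearIndependent F fun a j => value x (l i a j)) ∧
  ∀ i i', i ≠ i' → ∃ y : Fin (n + 1) → F, ¬ ((∀ a, ∑ j, value x (l i a j) * y j = 0) ↔ ∀ a, ∑ j, value x (l i' a j) * y j = 0)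

/-- The number of the points with coordinates in `F` of the complete intersection `V_c` over the point `x`. -/
noncomputable def points {F : Type} [Field F] {M n r : ℕ} {μ : Fin r → ℕ} (x : Fin M → F)
    (f : (a : Fin r) → Fin (μ a) → MvPolynomial (Fin (n + 1)) (Coeffs M)) (c : (Σ a, Fin (μ a)) → Coeffs M) : ℕ :=
  Nat.card {P : ℙ F (Fin (n + 1) → F) // ∀ a, eval₂ (value x) P.rep (∑ j, C (c ⟨a, j⟩) * f a j) = 0}

/-- The Betti number in degree `2 a`, for `2 a ≠ D`, of a complete intersection of dimension `D`. -/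
def betti (D a : ℕ) : ℕ := if 2 * a ≠ D ∧ a ≤ D then 1 else 0

/-- The eigenvalues `α m x` for the points `x` of `U_c` with coordinates in the field with `p ^ m` elements: their number is `b`,
they are at most `p ^ (m D / 2)`, and the trace formula holds for the fibre of `V_c` over `x`. For smooth fibres these are the
properties of the eigenvalues of Frobenius on the cohomology in degree `D` (Grothendieck, Lefschetz, Deligne). -/
structure IsFrobenius (p : ℕ) [Fact p.Prime] {M n r : ℕ} {μ : Fin r → ℕ} (G : Set (Coeffs M)) (D b : ℕ)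
    (f : (a : Fin r) → Fin (μ a) → MvPolynomial (Fin (n + 1)) (Coeffs M)) (Δ : MvPolynomial (Σ a, Fin (μ a)) (Coeffs M))
    (c : (Σ a, Fin (μ a)) → Coeffs M) (α : (m : ℕ) → (Fin M → GaloisField p m) → Multiset ℂ) : Prop where
  card : ∀ m, 1 ≤ m → ∀ x : Fin M → GaloisField p m, InU G Δ c x → (α m x).card = b
  norm : ∀ m, 1 ≤ m → ∀ x : Fin M → GaloisField p m, InU G Δ c x → ∀ a ∈ α m x, ‖a‖ ≤ Real.sqrt (p ^ m) ^ D
  trace : ∀ m, 1 ≤ m → ∀ x : Fin M → GaloisField p m, InU G Δ c x →
    (points x f c : ℂ) = ∑ a ∈ range (D + 1), betti D a * ((p : ℂ) ^ m) ^ a + (-1) ^ D * (α m x).sum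

/-- The eigenvalues on the cohomology of the fibre of `V_c` in degree `j`, where `q` is the number of the elements of the field. -/
noncomputable def cohomology (D q : ℕ) (α : Multiset ℂ) (j : ℕ) : Multiset ℂ :=
  if j = D then α else if Even j then Multiset.replicate (betti D (j / 2)) ((q : ℂ) ^ (j / 2)) else 0

/-- The eigenvalues on the cohomology in degree `j` of a product (Kunneth). -/
noncomputable def product (H H' : ℕ → Multiset ℂ) (j : ℕ) : Multiset ℂ :=
  ∑ x ∈ antidiagonal j, (H x.1 ×ˢ H' x.2).map (fun z => z.1 * z.2)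

/-- The eigenvalues on the cohomology of the power with `ν` factors. -/
noncomputable def power (H : ℕ → Multiset ℂ) : ℕ → ℕ → Multiset ℂ
  | 0, j => if j = 0 then {1} else 0
  | ν + 1, j => product H (power H ν) j

/-- The data of a variety `Y` over `S` modulo `p` in the degrees `j ≤ n`: the eigenvalues `η m x j` of Frobenius on the cohomology with
compact support of the fibres over the points with coordinates in the field with `p ^ m` elements at which `Δ` is not zero are at most
`β` numbers of absolute value at most `p ^ (m j / 2)`, the numbers `Γ j` on the edge are at most `β` numbers of absolute value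
`p ^ (j / 2 + e)`, and the sums over these points of the traces are the sums of their `m`-th powers, up to `C` times
`p ^ (m (j / 2 + e - 1 / 2))`. -/
structure IsVariety (p : ℕ) [Fact p.Prime] {M : ℕ} {T : Type} (G : Set (Coeffs M)) (Δ : MvPolynomial T (Coeffs M)) (e n β : ℕ) (C : ℝ)
    (η : (m : ℕ) → (Fin M → GaloisField p m) → ℕ → Multiset ℂ) (Γ : ℕ → Multiset ℂ) : Prop where
  weights : ∀ m, 1 ≤ m → ∀ x : Fin M → GaloisField p m, Regular G Δ x → ∀ j ≤ n, (η m x j).card ≤ β ∧
    ∀ a ∈ η m x j, ‖a‖ ≤ Real.sqrt (p ^ m) ^ j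
  edge : ∀ j ≤ n, (Γ j).card ≤ β ∧ ∀ g ∈ Γ j, ‖g‖ = Real.sqrt p ^ j * (p : ℝ) ^ e
  sum : ∀ m, 1 ≤ m → ∀ j ≤ n, ‖∑ᶠ x : {x : Fin M → GaloisField p m // Regular G Δ x}, (η m x.1 j).sum - ((Γ j).map fun g => g ^ m).sum‖ ≤
    C * (Real.sqrt (p ^ m) ^ j * (((p : ℝ) ^ m) ^ e / Real.sqrt (p ^ m)))

/-- The sum over the points of `U_c` with coordinates in the field with `p ^ m` elements of the traces on the cohomology with compact
support in degree `n` of the product of the power with `ν` factors of the fibre of `V_c` with the fibre of `Y`. -/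
noncomputable def traceSum (p : ℕ) [Fact p.Prime] {M : ℕ} {T : Type} (G : Set (Coeffs M)) (D ν n : ℕ) (Δ : MvPolynomial T (Coeffs M))
    (c : T → Coeffs M) (α : (m : ℕ) → (Fin M → GaloisField p m) → Multiset ℂ) (η : (m : ℕ) → (Fin M → GaloisField p m) → ℕ → Multiset ℂ)
    (m : ℕ) : ℂ :=
  ∑ᶠ x : {x : Fin M → GaloisField p m // InU G Δ c x}, (product (power (cohomology D (p ^ m) (α m x.1)) ν) (η m x.1) n).sum

/-- The numbers `A m` are the power sums of the rational function `∏ (1 - β' u) / (∏ (1 - γ u) ∏ (1 - β u))`, where the `γ` have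
absolute value `Q`, the `β` and the `β'` at most `Q / √q`, and the numbers of these numbers are at most `B` and `B'`. -/
structure IsLFunction (A : ℕ → ℂ) (q Q : ℝ) (B : ℕ) (B' : ℝ) (γ β β' : Multiset ℂ) : Prop where
  sum : ∀ m, 1 ≤ m → A m = (γ.map fun g => g ^ m).sum + (β.map fun g => g ^ m).sum - (β'.map fun g => g ^ m).sum
  top : ∀ g ∈ γ, ‖g‖ = Q
  low : ∀ g ∈ β + β', ‖g‖ ≤ Q / Real.sqrt q
  card : γ.card ≤ B
  num : ((β + β').card : ℝ) ≤ B'

/-- The characteristic polynomial has integral coefficients. -/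
def Integral (P : Multiset ℂ) : Prop := ∃ p : Polynomial ℤ, p.map (Int.castRingHom ℂ) = (P.map fun g => Polynomial.X - Polynomial.C g).prod

/-- For all forms of the `L`-function of the cohomology with compact support in degree `n` of `V_c^ν × Y` modulo `p` the number of the
numbers `γ` on the edge is that of the numbers in `P`, the numbers in `R` have at most the multiplicity that they have in `P`, and if the
characteristic polynomial of the `γ` has integral coefficients, then the `γ` are the numbers in `P`. -/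
def HasEdge (p : ℕ) [Fact p.Prime] {M N r : ℕ} {μ : Fin r → ℕ} (G : Set (Coeffs M)) (D b ν n e B : ℕ) (B' : ℝ)
    (f : (a : Fin r) → Fin (μ a) → MvPolynomial (Fin (N + 1)) (Coeffs M)) (Δ : MvPolynomial (Σ a, Fin (μ a)) (Coeffs M))
    (c : (Σ a, Fin (μ a)) → Coeffs M) (η : (m : ℕ) → (Fin M → GaloisField p m) → ℕ → Multiset ℂ) (R : Finset ℂ) (P : Multiset ℂ) : Prop :=
  ∀ (α : (m : ℕ) → (Fin M → GaloisField p m) → Multiset ℂ) (γ β β' : Multiset ℂ), IsFrobenius p G D b f Δ c α →
    IsLFunction (traceSum p G D ν n Δ c α η) p (Real.sqrt p ^ n * (p : ℝ) ^ e) B B' γ β β' →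
      γ.card = P.card ∧ (∀ g ∈ R, γ.count g ≤ P.count g) ∧ (Integral γ → γ = P)

/-- The families of polynomials of degree at most `N` with coefficients in the interval `[a, a + L)`. -/
def box (M : ℕ) (S : Type) (N : ℕ) (a : ℤ) (L : ℕ) : Set (S → Coeffs M) :=
  {c | ∀ s, (c s).totalDegree ≤ N ∧ ∀ m : Fin M →₀ ℕ, m.degree ≤ N → a ≤ coeff m (c s) ∧ coeff m (c s) < a + L}

/-- The number of the perfect matchings of `j` elements: the moments of the normal law. -/
def matchings (j : ℕ) : ℕ := if Even j then (j - 1).doubleFactorial else 0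

/-- The generating series of the Betti numbers outside the middle degree. -/
noncomputable def outer (D : ℕ) : PowerSeries ℕ := PowerSeries.mk fun b => if Even b then betti D (b / 2) else 0

/-- The number `T_a` of the products of codimension `a` on the power with `ν` factors of a complete intersection of dimension `D` of
hyperplane classes, diagonals and `z` further classes in the middle degree: `k` factors carry a class of the middle degree, `j` of
them are matched by diagonals, and the others carry one of the `z` classes or, for `D` even, the power of the hyperplane class. -/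
noncomputable def classes (D ν z a : ℕ) : ℕ :=
  ∑ k ∈ range (ν + 1), (ν.choose k * (if D * k ≤ 2 * a then PowerSeries.coeff (2 * a - D * k) (outer D ^ (ν - k)) else 0)) *
    ∑ j ∈ range (k + 1), k.choose j * matchings j * (z + if Even D then 1 else 0) ^ (k - j)

/-- The expected numbers on the edge for `V^ν × Y` in degree `n`: those in `Γ (n - 2 a)`, multiplied by `q ^ a`, `T_a` times, for all
`a ≤ n / 2`. -/
noncomputable def expected (D ν z n q : ℕ) (Γ : ℕ → Multiset ℂ) : Multiset ℂ :=
  ∑ a ∈ range (n / 2 + 1), classes D ν z a • (Γ (n - 2 * a)).map (fun g => g * (q : ℂ) ^ a)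

theorem power_eq (H : ℕ → Multiset ℂ) (ν j : ℕ) : power H ν j = Q282GP.kun H ν j := by
  induction ν generalizing j with
  | zero => rfl
  | succ ν ih =>
    unfold power product Q282GP.kun
    refine sum_congr rfl fun x _ => ?_
    rw [ih]

theorem betti_eq (D r a : ℕ) : Q282GP.oc (fun _ => 1) D r a = betti D a := by
  unfold Q282GP.oc betti
  split_ifs <;> first | rfl | omega

theorem cohomology_eq (D r q : ℕ) (α : Multiset ℂ) : Q282GP.coh (fun _ => 1) D r q α = cohomology D q α := by
  funext j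
  unfold Q282GP.coh cohomology
  rw [betti_eq]

theorem outer_eq (D r : ℕ) : Q282GP.oser (fun _ => 1) D r = outer D := by
  unfold Q282GP.oser outer
  simp only [betti_eq]

theorem classes_eq (D r ν z a : ℕ) : ∑ l ∈ range (ν + 1), Q282GP.TT (fun _ => 1) D r ν a l * z ^ l = classes D ν z a := by
  unfold Q282GP.TT classes
  simp only [sum_mul]
  rw [sum_comm]
  refine sum_congr rfl fun κ hκ => ?_
  rw [mem_range] at hκ
  have h1 : ∑ l ∈ range (ν + 1), Q282GP.mid (if Even D then 1 else 0) κ l * z ^ l =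
      ∑ j ∈ range (κ + 1), κ.choose j * matchings j * (z + if Even D then 1 else 0) ^ (κ - j) := by
    have h2 := Q282GP.expand (z : ℝ) (if Even D then 1 else 0) κ ν (by omega)
    exact_mod_cast h2.symm
  rw [← h1, mul_sum]
  refine sum_congr rfl fun l _ => ?_
  have h3 : Q282GP.vv (fun _ => 1) D r = if Even D then 1 else 0 := rfl
  have h4 : Q282GP.cc (fun _ => 1) D r ν a κ = ν.choose κ * (if D * κ ≤ 2 * a then PowerSeries.coeff (2 * a - D * κ) (outer D ^ (ν - κ)) else 0) := by
    unfold Q282GP.cc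
    rw [outer_eq]
  rw [h3, h4, mul_assoc]

theorem expected_eq (D r ν z n q : ℕ) (Γ : ℕ → Multiset ℂ) :
    Q282UV.PP (fun _ => 1) D r ν n (Real.sqrt q) (fun j i => z ^ i • Γ j) = expected D ν z n q Γ := by
  unfold Q282UV.PP expected
  have h1 : ∀ b ∈ range (n + 1), ¬ Even b →
      ∑ l ∈ range (ν + 1), Q282UV.TE (fun _ => 1) D r ν b l • (z ^ l • Γ (n - b)).map (fun g => g * ((Real.sqrt q ^ b : ℝ) : ℂ)) = 0 := by
    intro b _ hb
    refine sum_eq_zero fun l _ => ?_
    unfold Q282UV.TE
    rw [if_neg hb, zero_smul]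
  rw [← sum_filter_add_sum_filter_not (range (n + 1)) Even, add_comm, sum_eq_zero (fun b hb => h1 b (mem_filter.1 hb).1 (mem_filter.1 hb).2), zero_add]
  have h2 : (range (n + 1)).filter Even = (range (n / 2 + 1)).image (fun a => 2 * a) := by
    ext b
    simp only [mem_filter, mem_range, mem_image]
    constructor
    · rintro ⟨hb, c, hc⟩
      exact ⟨c, by omega, by omega⟩
    · rintro ⟨c, hc, rfl⟩
      exact ⟨by omega, even_two_mul c⟩
  rw [h2, sum_image (fun a _ b _ h => by omega)]
  refine sum_congr rfl fun a _ => ?_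
  have h4 : ((Real.sqrt q ^ (2 * a) : ℝ) : ℂ) = (q : ℂ) ^ a := by
    rw [pow_mul, Real.sq_sqrt (Nat.cast_nonneg _)]
    push_cast
    rfl
  rw [← classes_eq D r ν z a]
  have h5 : ∀ (T : Finset ℕ) (u : ℕ → ℕ) (X : Multiset ℂ), (∑ l ∈ T, u l) • X = ∑ l ∈ T, u l • X := by
    intro T u X
    induction T using Finset.induction_on with
    | empty => simp
    | insert b T hb ih => rw [sum_insert hb, sum_insert hb, add_smul, ih]
  rw [h5]
  refine sum_congr rfl fun l _ => ?_
  have h3 : Q282UV.TE (fun _ => 1) D r ν (2 * a) l = Q282GP.TT (fun _ => 1) D r ν a l := by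
    unfold Q282UV.TE
    rw [if_pos (even_two_mul a), Nat.mul_div_cancel_left a two_pos]
  rw [h3, h4, Multiset.map_nsmul, mul_smul]

theorem expected_card (D ν z n q β : ℕ) (Γ : ℕ → Multiset ℂ) (h : ∀ j ≤ n, (Γ j).card ≤ β) :
    (expected D ν z n q Γ).card ≤ (∑ a ∈ range (n / 2 + 1), classes D ν z a) * β := by
  unfold expected
  have h1 : ∀ (T : Finset ℕ) (X : ℕ → Multiset ℂ), (∑ a ∈ T, X a).card = ∑ a ∈ T, (X a).card := by
    intro T X
    induction T using Finset.induction_on with
    | empty => simp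
    | insert b T hb ih => rw [sum_insert hb, sum_insert hb, Multiset.card_add, ih]
  rw [h1, sum_mul]
  refine sum_le_sum fun a _ => ?_
  rw [Multiset.card_nsmul, Multiset.card_map]
  exact Nat.mul_le_mul_left _ (h _ (Nat.sub_le _ _))

section

variable {p : ℕ} [Fact p.Prime] {M n r : ℕ} {μ : Fin r → ℕ} (G : Set (MvPolynomial (Fin M) ℤ))
  (Δ : MvPolynomial (Σ a, Fin (μ a)) (MvPolynomial (Fin M) ℤ)) (c : (Σ a, Fin (μ a)) → MvPolynomial (Fin M) ℤ)

theorem value_eq {m : ℕ} (x : Fin M → GaloisField p m) (g : MvPolynomial (Fin M) ℤ) : aeval x (Q282AZ.red p g) = value x g := by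
  rw [← Q282AE.ev_apply, Q282AZ.ev_red']
  rfl

theorem inS_iff {m : ℕ} (x : Fin M → GaloisField p m) : Q282UV.On (Q282AZ.red p '' G) x ↔ InS G x := by
  unfold InS Q282UV.On
  constructor
  · intro h g hg
    rw [← value_eq]
    exact h _ ⟨g, hg, rfl⟩
  · rintro h _ ⟨g, hg, rfl⟩
    rw [value_eq]
    exact h g hg

theorem inU_iff {m : ℕ} (x : Fin M → GaloisField p m) :
    Q282UV.On (Q282AZ.red p '' G) x ∧ Q282AE.Good (map (Q282AZ.red p) Δ) (fun s => Q282AZ.red p (c s)) x ↔ InU G Δ c x :=
  and_congr (inS_iff G x) (Q282AZ.good_red x Δ c)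

theorem regular_iff {m : ℕ} (x : Fin M → GaloisField p m) :
    Q282UV.On (Q282AZ.red p '' G) x ∧ map (Q282AE.ev x) (map (Q282AZ.red p) Δ) ≠ 0 ↔ Regular G Δ x := by
  rw [Q282AZ.map_red_iff]
  exact and_congr (inS_iff G x) Iff.rfl

theorem finsum_pred {α : Type} (P Q : α → Prop) (h : ∀ x, P x ↔ Q x) (g : α → ℂ) : ∑ᶠ x : {x // P x}, g x.1 = ∑ᶠ x : {x // Q x}, g x.1 := by
  have : P = Q := funext fun x => propext (h x)
  subst this
  rfl

theorem traceSum_eq (D ν i : ℕ) (α : (m : ℕ) → (Fin M → GaloisField p m) → Multiset ℂ)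
    (η : (m : ℕ) → (Fin M → GaloisField p m) → ℕ → Multiset ℂ) (m : ℕ) (hm : 1 ≤ m) :
    Q282UV.traceSum (fun m => GaloisField p m) (Q282AZ.red p '' G) (fun _ => 1) D r ν i (map (Q282AZ.red p) Δ)
      (fun s => Q282AZ.red p (c s)) α η m = traceSum p G D ν i Δ c α η m := by
  have h5 : ∀ H : ℕ → Multiset ℂ, Q282GP.kun H ν = power H ν := fun H => funext fun j => (power_eq H ν j).symm
  unfold traceSum Q282UV.traceSum
  simp only [h5, cohomology_eq]
  rw [GaloisField.card p m (by omega)]
  exact finsum_pred _ _ (inU_iff G Δ c) fun x => (product (power (cohomology D (p ^ m) (α m x)) ν) (η m x) i).sum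

theorem points_eq (f : (a : Fin r) → Fin (μ a) → MvPolynomial (Fin (n + 1)) (MvPolynomial (Fin M) ℤ)) {m : ℕ} (x : Fin M → GaloisField p m) :
    Q282GH.zeros (Q282AE.ev x) (Q282AE.member ∅ (fun a j => map (Q282AZ.red p) (f a j)) (fun s => Q282AZ.red p (c s))) = points x f c := by
  have h1 := Q282AZ.member_red p ∅ f c
  rw [Set.image_empty] at h1
  rw [h1, Q282AZ.zeros_red]
  unfold Q282GH.zeros points
  refine Nat.card_congr (Equiv.subtypeEquivRight fun P => ?_)
  constructor
  · intro h a
    exact h _ (Or.inl ⟨a, rfl⟩)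
  · rintro h H (⟨a, rfl⟩ | hH)
    · exact h a
    · exact absurd hH (Set.notMem_empty _)

theorem exceptional (D b ν i e B : ℕ) (B' : ℝ) (f : (a : Fin r) → Fin (μ a) → MvPolynomial (Fin (n + 1)) (MvPolynomial (Fin M) ℤ))
    (η : (m : ℕ) → (Fin M → GaloisField p m) → ℕ → Multiset ℂ) (R : Finset ℂ) (P : Multiset ℂ)
    (h : ¬ HasEdge p G D b ν i e B B' f Δ c η R P) :
    Q282UV.Exc (fun m => GaloisField p m) (Q282AZ.red p '' G) (fun _ => 1) D r b ν i e ∅ (fun a j => map (Q282AZ.red p) (f a j))
      (map (Q282AZ.red p) Δ) η P (R.filter fun g => ‖g‖ = Real.sqrt (Nat.card (ZMod p)) ^ i * (Nat.card (ZMod p) : ℝ) ^ e) B B'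
      (fun s => Q282AZ.red p (c s)) := by
  unfold HasEdge at h
  push Not at h
  obtain ⟨α, γ, β, β', h1, h2, h3⟩ := h
  have hq : Nat.card (ZMod p) = p := Nat.card_zmod _
  have hc : ∀ m, 1 ≤ m → (Nat.card (GaloisField p m) : ℝ) = (p : ℝ) ^ m := by
    intro m hm
    rw [GaloisField.card p m (by omega)]
    push_cast
    rfl
  refine ⟨α, γ, β, β', ⟨fun m hm x hx hx' => h1.card m hm x ((inU_iff G Δ c x).1 ⟨hx, hx'⟩), fun m hm x hx hx' => ?_,
    fun m hm x hx hx' => ?_⟩, ⟨?_, ?_, ?_, h2.card, h2.num⟩, ?_⟩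
  · rw [hc m hm]
    exact h1.norm m hm x ((inU_iff G Δ c x).1 ⟨hx, hx'⟩)
  · have h4 := h1.trace m hm x ((inU_iff G Δ c x).1 ⟨hx, hx'⟩)
    rw [points_eq, h4]
    congr 1
    unfold Q282GP.tt
    simp only [betti_eq, hc m hm]
    push_cast
    rfl
  · intro m hm
    rw [traceSum_eq G Δ c D ν i α η m hm]
    exact h2.sum m hm
  · rw [hq]
    exact h2.top
  · rw [hq]
    exact h2.low
  · rw [hq]
    rintro ⟨⟨h4, h5⟩, h6⟩
    obtain ⟨h7, h8⟩ := h3 h4 (fun g hg => by
      by_cases hgn : ‖g‖ = Real.sqrt p ^ i * (p : ℝ) ^ e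
      · exact h5 g (mem_filter.2 ⟨hg, hgn⟩)
      · have h7 : g ∉ γ := fun h8 => hgn (h2.top g h8)
        rw [Multiset.count_eq_zero_of_notMem h7]
        exact Nat.zero_le _)
    exact h8 (h6 h7)

end

/-- The theorem modulo one prime. -/
theorem one_prime (p : ℕ) [Fact p.Prime] (M e : ℕ) (he : 1 ≤ e) (G : Set (Coeffs M)) (π : Fin e → Coeffs M) (C₃ : ℕ) (hS : IsBase p G π C₃)
    (D r s g ν : ℕ) (hD : 1 ≤ D) (hr : 1 ≤ r) (hg : 2 * g ≤ D) (hν : 1 ≤ ν) (μ d : Fin r → ℕ) (hd : ∀ a, s + 2 * ν ≤ d a + 1)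
    (Δ : MvPolynomial (Σ a, Fin (μ a)) (Coeffs M)) (l : Fin s → Fin (D + r - g) → Fin (D + r + 1) → Coeffs M)
    (hl : ∀ m, 1 ≤ m → ∀ x : Fin M → GaloisField p m, Regular G Δ x → AreSubspaces x l)
    (f : (a : Fin r) → Fin (μ a) → MvPolynomial (Fin (D + r + 1)) (Coeffs M)) (hf : ∀ a, Spans l (d a) (f a))
    (n b B β κ : ℕ) (B₀ : ℝ) (R : Finset ℂ) (E : Finset (Multiset ℂ)) (δ : ℝ) (hδ : 0 < δ) (hδ1 : δ ≤ 1) :
    ∃ C : ℝ, ∀ (N : ℕ) (η : (m : ℕ) → (Fin M → GaloisField p m) → ℕ → Multiset ℂ) (Γ : ℕ → Multiset ℂ),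
      IsVariety p G Δ e n β (B₀ * (N + 1) ^ κ) η Γ →
      (expected D ν (if 2 * g = D then s else 0) n p Γ ∈ E ∨ Integral (expected D ν (if 2 * g = D then s else 0) n p Γ)) →
      (Set.ncard {c : (Σ a, Fin (μ a)) → MvPolynomial (Fin M) (ZMod p) | (∀ i, (c i).totalDegree ≤ N) ∧
        Q282UV.Exc (fun m => GaloisField p m) (Q282AZ.red p '' G) (fun _ => 1) D r b ν n e ∅ (fun a j => map (Q282AZ.red p) (f a j))
          (map (Q282AZ.red p) Δ) η (expected D ν (if 2 * g = D then s else 0) n p Γ)
          (R.filter fun g => ‖g‖ = Real.sqrt (Nat.card (ZMod p)) ^ n * (Nat.card (ZMod p) : ℝ) ^ e) B (B₀ * (N + 1) ^ κ) c} : ℝ) *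
        (p : ℝ) ^ ((1 - δ) * (e * N / 2 : ℝ)) ≤
      C * Set.ncard {c : (Σ a, Fin (μ a)) → MvPolynomial (Fin M) (ZMod p) | ∀ i, (c i).totalDegree ≤ N} := by
  classical
  have hq : Nat.card (ZMod p) = p := Nat.card_zmod _
  have hcn : ∀ m, 1 ≤ m → Nat.card (GaloisField p m) = p ^ m := fun m hm => GaloisField.card p m (by omega)
  have hc : ∀ m, 1 ≤ m → (Nat.card (GaloisField p m) : ℝ) = (p : ℝ) ^ m := by
    intro m hm
    rw [hcn m hm]
    push_cast
    rfl
  obtain ⟨z, hz⟩ : ∃ z : ℕ, z = if 2 * g = D then s else 0 := ⟨_, rfl⟩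
  rw [← hz]
  obtain ⟨B', hB'⟩ : ∃ B' : ℕ, B' = (∑ a ∈ range (n / 2 + 1), classes D ν z a) * β := ⟨_, rfl⟩
  obtain ⟨Ps, hPs⟩ : ∃ Ps : Set (Multiset ℂ), Ps = {P : Multiset ℂ | (∀ g ∈ P, ‖g‖ = Real.sqrt p ^ n * (p : ℝ) ^ e) ∧
    (P ∈ E ∨ (P.card ≤ B' ∧ Integral P))} := ⟨_, rfl⟩
  have hfin : Ps.Finite := by
    rw [hPs]
    exact Q282UV.finite_expected _ B' E
  have hthr : ∀ a, Q282GH.Through (Q282AE.pforms fun i a j => Q282AZ.red p (l i a j)) (d a) (fun j => map (Q282AZ.red p) (f a j)) := by
    intro a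
    have h1 := Q282AZ.through_red p (h := unionEquations l) (e := fun _ => s) (fun φ => ?_)
      (⟨(hf a).hom, (hf a).mem, (hf a).gen⟩ : Q282GH.Through (unionEquations l) (d a) (f a))
    · have h2 : (fun φ : Fin s → Fin (D + r - g) => map (Q282AZ.red p) (unionEquations l φ)) =
          Q282AE.pforms fun i a j => Q282AZ.red p (l i a j) := funext fun φ => Q282AZ.red_pforms p l φ
      rw [h2] at h1
      exact h1
    · have := IsHomogeneous.prod univ (fun i => ∑ j, C (l i (φ i) j) * X j) (fun _ => 1)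
        (fun i _ => IsHomogeneous.sum _ _ _ fun j _ => isHomogeneous_C_mul_X _ _)
      rw [sum_const, card_univ, Fintype.card_fin, smul_eq_mul, mul_one] at this
      exact this
  obtain ⟨C, hC0, hC⟩ := Q282UW.almost_lin' (k := ZMod p) (A := Fin r) (ι := fun a => Fin (μ a)) D hD r hr (Fintype.card_fin r) ν hν n hg
    (fun i a j => Q282AZ.red p (l i a j)) hd hthr (map (Q282AZ.red p) Δ) (Q282AZ.red p '' G) e he (fun i => Q282AZ.red p (π i)) C₃ B₀ β b B κ B₀
    (fun m => GaloisField p m) (fun m hm => GaloisField.finrank p (by omega)) (fun m hm y => by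
      refine le_trans (le_of_eq ?_) (hS m hm y)
      refine Nat.card_congr (Equiv.subtypeEquivRight fun x => ?_)
      simp only [value_eq]
      exact and_congr (inS_iff G x) Iff.rfl)
    (fun m hm x hx hx' => by
      have h1 := hl m hm x ((regular_iff G Δ x).1 ⟨hx, hx'⟩)
      unfold Q282AE.Subspaces
      simp only [Q282AZ.ev_red']
      exact h1) Ps hfin
    (R.filter fun g => ‖g‖ = Real.sqrt (Nat.card (ZMod p)) ^ n * (Nat.card (ZMod p) : ℝ) ^ e) (fun g hg => (mem_filter.1 hg).2) δ hδ hδ1
  refine ⟨C, fun N η Γ hV hP => ?_⟩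
  obtain ⟨hv1, hv2, hv3⟩ := hV
  have h2 := hC N η (fun m hm x hx hx' j hj => by
    rw [hc m hm]
    exact hv1 m hm x ((regular_iff G Δ x).1 ⟨hx, hx'⟩) j hj) Γ (fun j hj => by
    rw [hq]
    exact (hv2 j hj).2) (fun m hm j hj => by
    rw [hc m hm, finsum_pred _ _ (regular_iff G Δ) fun x => (η m x j).sum]
    exact hv3 m hm j hj)
  rw [← hz, expected_eq, hq] at h2
  rw [hq]
  refine h2 ?_
  rw [hPs]
  refine ⟨?_, ?_⟩
  · rw [← expected_eq D r]
    exact Q282UV.PP_norm _ D r ν n _ _ (Real.sqrt_nonneg _) _ fun j hj i _ g hg => (hv2 j hj).2 g (Multiset.mem_of_mem_nsmul hg)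
  · rcases hP with h3 | h3
    · exact Or.inl h3
    · refine Or.inr ⟨?_, h3⟩
      rw [hB']
      exact expected_card D ν z n _ β Γ fun j hj => (hv2 j hj).1

open Classical in
/-- **Almost all complete intersections have no Tate classes in common with all smaller varieties: characteristic zero.** -/
theorem result (P : Finset Nat.Primes)
    -- the base `S`
    (M e : ℕ) (he : 1 ≤ e) (G : Set (Coeffs M)) (π : Fin e → Coeffs M) (C₃ : ℕ) (hS : ∀ p ∈ P, IsBase p G π C₃)
    -- the complete intersections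
    (D r s g ν : ℕ) (hD : 1 ≤ D) (hr : 1 ≤ r) (hg : 2 * g ≤ D) (hν : 1 ≤ ν) (μ d : Fin r → ℕ) (hd : ∀ a, s + 2 * ν ≤ d a + 1)
    (Δ : MvPolynomial (Σ a, Fin (μ a)) (Coeffs M)) (l : Fin s → Fin (D + r - g) → Fin (D + r + 1) → Coeffs M)
    (hl : ∀ p ∈ P, ∀ m, 1 ≤ m → ∀ x : Fin M → GaloisField p m, Regular G Δ x → AreSubspaces x l)
    (f : (a : Fin r) → Fin (μ a) → MvPolynomial (Fin (D + r + 1)) (Coeffs M)) (hf : ∀ a, Spans l (d a) (f a))
    -- the constants
    (n b B β κ : ℕ) (B₀ : ℝ) (R : Nat.Primes → Finset ℂ) (E : Nat.Primes → Finset (Multiset ℂ)) (δ : ℝ) (hδ : 0 < δ) :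
    ∃ C : ℝ, ∀ (N : ℕ) (T : Type) [Fintype T] (η : T → (p : Nat.Primes) → (m : ℕ) → (Fin M → GaloisField p m) → ℕ → Multiset ℂ)
      (Γ : T → Nat.Primes → ℕ → Multiset ℂ),
      (∀ u, ∀ p ∈ P, IsVariety p G Δ e n β (B₀ * (N + 1) ^ κ) (η u p) (Γ u p)) →
      (∀ u, ∀ p ∈ P, expected D ν (if 2 * g = D then s else 0) n p (Γ u p) ∈ E p ∨
        Integral (expected D ν (if 2 * g = D then s else 0) n p (Γ u p))) →
      ∀ (a : ℤ) (L : ℕ) (Q : ℝ), ∏ p ∈ P, (p : ℕ) ∣ L → 1 ≤ Q →
      (Set.ncard {c ∈ box M (Σ a, Fin (μ a)) N a L | ∃ u, Q ≤ ∏ p ∈ P.filter (fun p : Nat.Primes => ¬ HasEdge p G D b ν n e B (B₀ * (N + 1) ^ κ) f Δ c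
        (η u p) (R p) (expected D ν (if 2 * g = D then s else 0) n p (Γ u p))), ((p : ℕ) : ℝ)} : ℝ) * Q ^ ((1 - δ) * (e * N / 2 : ℝ)) ≤
      C * Fintype.card T * Set.ncard (box M (Σ a, Fin (μ a)) N a L) := by
  obtain ⟨z, hz⟩ : ∃ z : ℕ, z = if 2 * g = D then s else 0 := ⟨_, rfl⟩
  obtain ⟨δ', hδ'⟩ : ∃ δ' : ℝ, δ' = min δ 1 := ⟨_, rfl⟩
  have hδ0 : 0 < δ' := by
    rw [hδ']
    exact lt_min hδ one_pos
  have hδ1 : δ' ≤ 1 := by
    rw [hδ']
    exact min_le_right _ _
  have hone : ∀ p : Nat.Primes, ∃ C : ℝ, p ∈ P → ∀ (N : ℕ) (η : (m : ℕ) → (Fin M → GaloisField p m) → ℕ → Multiset ℂ) (Γ : ℕ → Multiset ℂ),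
      IsVariety p G Δ e n β (B₀ * (N + 1) ^ κ) η Γ →
      (expected D ν (if 2 * g = D then s else 0) n p Γ ∈ E p ∨ Integral (expected D ν (if 2 * g = D then s else 0) n p Γ)) →
      (Set.ncard {c : (Σ a, Fin (μ a)) → MvPolynomial (Fin M) (ZMod p) | (∀ i, (c i).totalDegree ≤ N) ∧
        Q282UV.Exc (fun m => GaloisField p m) (Q282AZ.red p '' G) (fun _ => 1) D r b ν n e ∅ (fun a j => map (Q282AZ.red p) (f a j))
          (map (Q282AZ.red p) Δ) η (expected D ν (if 2 * g = D then s else 0) n p Γ)
          ((R p).filter fun g => ‖g‖ = Real.sqrt (Nat.card (ZMod p)) ^ n * (Nat.card (ZMod p) : ℝ) ^ e) B (B₀ * (N + 1) ^ κ) c} : ℝ) *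
        ((p : ℕ) : ℝ) ^ ((1 - δ') * (e * N / 2 : ℝ)) ≤
      C * Set.ncard {c : (Σ a, Fin (μ a)) → MvPolynomial (Fin M) (ZMod p) | ∀ i, (c i).totalDegree ≤ N} := by
    intro p
    by_cases hp : p ∈ P
    · obtain ⟨C, hC⟩ := one_prime (p : ℕ) M e he G π C₃ (hS p hp) D r s g ν hD hr hg hν μ d hd Δ l (hl p hp) f hf n b B β κ B₀ (R p) (E p)
        δ' hδ0 hδ1
      exact ⟨C, fun _ => hC⟩
    · exact ⟨0, fun h => absurd h hp⟩
  choose C hC using hone
  refine ⟨2 ^ P.card * ∏ p ∈ P, max 1 (C p), fun N T _ η Γ hV hP a L Q hL hQ => ?_⟩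
  obtain ⟨θ, hθ⟩ : ∃ θ : ℝ, θ = (1 - δ') * (e * N / 2 : ℝ) := ⟨_, rfl⟩
  have hθ0 : 0 ≤ θ := by
    rw [hθ]
    exact mul_nonneg (by linarith) (by positivity)
  have h1 := Q282UW.combine M (Σ a, Fin (μ a)) P θ hθ0 (fun p => max 1 (C p)) (fun p => le_max_left _ _) N T
    (fun u (p : Nat.Primes) c => Q282UV.Exc (fun m => GaloisField p m) (Q282AZ.red p '' G) (fun _ => 1) D r b ν n e ∅ (fun a j => map (Q282AZ.red p) (f a j))
      (map (Q282AZ.red p) Δ) (η u p) (expected D ν (if 2 * g = D then s else 0) n p (Γ u p))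
      ((R p).filter fun g => ‖g‖ = Real.sqrt (Nat.card (ZMod p)) ^ n * (Nat.card (ZMod p) : ℝ) ^ e) B (B₀ * (N + 1) ^ κ) c)
    (fun u p hp => by
      rw [hθ]
      exact (hC p hp N (η u p) (Γ u p) (hV u p hp) (hP u p hp)).trans (mul_le_mul_of_nonneg_right (le_max_right _ _) (Nat.cast_nonneg _)))
    a L hL Q hQ
  have hQ0 : 0 < Q := by linarith
  have h2 : Q ^ ((1 - δ) * (e * N / 2 : ℝ)) ≤ Q ^ θ := by
    rw [hθ]
    refine Real.rpow_le_rpow_of_exponent_le hQ (mul_le_mul_of_nonneg_right ?_ (by positivity))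
    rw [hδ']
    linarith [min_le_left δ 1]
  refine le_trans (mul_le_mul ?_ h2 (by positivity) (by positivity)) h1
  refine Nat.cast_le.2 (Set.ncard_le_ncard ?_ ((Q282UW.box_finite (M := M) (S := Σ a, Fin (μ a)) N a L).subset (Set.sep_subset _ _)))
  rintro c ⟨hc, u, hu⟩
  refine ⟨hc, u, hu.trans ?_⟩
  have h3 : P.filter (fun p : Nat.Primes => ¬ HasEdge p G D b ν n e B (B₀ * (N + 1) ^ κ) f Δ c (η u p) (R p)
      (expected D ν (if 2 * g = D then s else 0) n p (Γ u p))) ⊆
      P.filter (fun p : Nat.Primes => Q282UV.Exc (fun m => GaloisField p m) (Q282AZ.red p '' G) (fun _ => 1) D r b ν n e ∅ (fun a j => map (Q282AZ.red p) (f a j))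
      (map (Q282AZ.red p) Δ) (η u p) (expected D ν (if 2 * g = D then s else 0) n p (Γ u p))
      ((R p).filter fun g => ‖g‖ = Real.sqrt (Nat.card (ZMod p)) ^ n * (Nat.card (ZMod p) : ℝ) ^ e) B (B₀ * (N + 1) ^ κ)
      (fun s => Q282AZ.red p (c s))) := by
    intro p hp
    rw [mem_filter] at hp ⊢
    exact ⟨hp.1, exceptional G Δ c D b ν n e B (B₀ * (N + 1) ^ κ) f (η u p) (R p) _ hp.2⟩
  exact Q282UW.prod_mono h3

end Pool.Agent.Results.MP_40dc3c_ag.AlmostAllTimesSingular
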