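import Pool.Agent.Q59.IB.Equi
import Pool.Agent.Q59.IB.Covers

/-!
# The Tate conjecture for `Z × C ^ n`, `Z` an arbitrary singular variety

Let `k₀` be a finitely generated field, of characteristic zero or positive, and `Z` an ARBITRARY variety
over `k₀`: singular, open, reducible. Let `T` be a geometrically irreducible variety over `k₀` with the
function field `k`, and `C` a curve over `k` (the generic member of a family of curves over `T`), which is a
Galois cover of a smooth projective curve `S` of genus `g ≥ 0`, ramified over some points `a_1, ..., a_r`,
with the group `G` and with ramification indices which divide `N` (in positive characteristic: the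
order of `G` is prime to it). We study the conjecture of Jannsen for `X = Z × C ^ n`.

**Homology.** By the Künneth formula the Borel-Moore homology `H_(2 j) (X, ℚ_ℓ (j))` is the sum of
tensor products of the Borel-Moore homology `W` of `Z` and of tensor powers of `H_1 (C)`. After a
finite extension of the field of coefficients (which is embedded into `ℂ`) and of `k`, the latter is
the direct sum of the `χ ⊗ V_χ`, where `χ` runs through the irreducible representations of `G` and `V_χ`
belongs to the local system `L_χ`, of rank `dim χ`, on `S` without the `a_j`. The local monodromies have
the eigenvalues `exp (2 π i a / N)` (the powers of a generator of the tame inertia); let `ex` be the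
multiset of the nonzero `a` for all points. `V_χ` has the dimension `(2 g - 2) rank + |ex| + 2 inv`. The
structure `LocalSystems` (in `Pool.Agent.Q59.IB.Covers`) contains these numerical invariants for a finite
family of local systems on one or several curves.

**Galois action.** An element `γ` of the Galois group of `k` acts on the sum `H` of the `V_i` by a map
`mat γ` which preserves the `V_i` and multiplies the pairings `V_i × V_i* → ℚ_ℓ (1)` by the cyclotomic
character `cyc γ`; `det γ i` is the determinant on `V_i`. It acts by `rep γ` on `W`, through the Galois group
of `k₀`; the homology of `Z` is not semisimple in general, it has many weights, and nothing is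
supposed about it. (Tate twists are included in `rep`.) The geometric fundamental group of `T` acts
trivially on `W`. Let `D` be the group of the maps of `H` which preserve the `V_i` and the pairings and have
determinant one on all `V_i`, a product of special linear, symplectic and special orthogonal groups.
For sufficiently general families `D` is the identity component of the Zariski closure of the image
of the geometric fundamental group of `T` (for `T` the moduli space of the pointed curves with
level structures and `G` commutative, `g ≥ 3`: Looijenga, Boggi; `G` arbitrary, `g` large: Landesman,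
Litt, Sawin; `g = 0`: Deligne, Mostow, Katz; in positive characteristic, `g = 0`: Katz; the case
of positive characteristic prime to the order of `G` follows from characteristic zero by the comparison of
tame fundamental groups). Then the Tate classes are the tensors with values in `W` which are invariant
under `D` and under the Galois group (`IsTateTensor`).

**Algebraic classes.** The pairings are algebraic. The product of determinants `det V_i`, `i = μ j`, is
isomorphic to the line of a Fermat variety of degree `N` with the character `exAll μ`, the union of
the `ex i`, up to a Tate twist (Schoen for unramified covers, where it is spanned by an algebraic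
cycle; see `MP_e12fcd_ag.CoversTimesVarieties`). If `exAll μ` is a union of pairs `(a, -a)` (`Balanced`),
or more generally in the family generated by the pairs, the standard characters, the characters
with four entries and the curve products (`AlgebraicLine`), then this line is spanned by an algebraic
cycle, after a finite extension of the field (Shioda, Aoki; in positive characteristic by
specialization), and therefore its character is a power of the cyclotomic character:
`DetsAreTate`. It is sufficient to prove the conjecture of Jannsen over a finite extension of `k`.

**The theorem.** Let `x` be a Tate class (a Tate tensor with `s` factors).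

(1) `x` is a combination of products of pairings, determinants and elements `z` of `W` such that the
Galois group acts on `z` by the inverse of the character of the product. So **the conjecture of
Jannsen for the products of `Z` and Fermat varieties of degree `N` implies the conjecture for all
`Z × C ^ n`.**

(2) Suppose that the exponents of all local systems form pairs `(a, -a)` (`Balanced`): this is
the case if the cover is unramified, or if the local monodromies form pairs of mutually inverse conjugacy
classes or are conjugate to their inverses (for instance for the symmetric groups and all Weyl groups).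
Then `z` is a Tate class on `Z`, and the determinants are algebraic. So **for every variety `Z`,
the conjecture of Jannsen for `Z` implies the conjecture for all `Z × C ^ n`**, for instance if `Z` is an
arbitrary singular variety which has a stratification by products of tori and affine spaces, or
any curve.

(3) Suppose that the determinants of the `V_i` occur in `W` only in a trivial way (`NoCM`: in
characteristic zero this is so if `W` contains no characters of CM type, since the infinity type of the
character of the product is given by the numbers `offset`; in characteristic `p ≡ 1` modulo `N`, with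
`k₀` finite, if the Frobenius eigenvalues on `W` are multiplicatively independent of Gauss sums), and
`Tame`: all exponents form doubles `(a, a)` and pairs, with no condition on `N` (for instance `C` is the
curve `y ^ m = f (x)` with a generic polynomial `f` of even degree divisible by `m`), or
`|ex i| ≤ B dim V_i` and no element of the finite set `ExcludedEven (B s)` or `ExcludedOdd (B s)` divides `N`
(all these numbers are at least `55`; `B = 3` is always sufficient for local systems of rank one). Then
`z` is a Tate class on `Z` and the line of the determinants is algebraic, so that **the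
conjecture of Jannsen for `Z` implies the conjecture for `Z × C ^ n`.**
-/

namespace Pool.Agent.Results.MP_40dc3c_ag.CoversTimesSingular

open Pool.Agent.Q59.GC Pool.Agent.Q59.VZ Pool.Agent.Q59.IB

/-- The action of the Galois group `Γ` on the sum `H` of the spaces `V_i` (by `mat γ`, which multiplies
the pairings by `cyc γ` and has the determinant `det γ i` on `V_i`) and on the homology `W` of `Z`
(by `rep γ`). -/
structure GaloisModule {N : ℕ} {I : Type} [Fintype I] [DecidableEq I] (S : LocalSystems N I)
    (ε : Letter S.labels → ℂ) (W : Type) [AddCommGroup W] [Module ℂ W] where
  Γ : Type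
  mat : Γ → Matrix (Letter S.labels) (Letter S.labels) ℂ
  cyc : Γ → ℂ
  det : Γ → I → ℂ
  sim : ∀ γ, IsSimilitude ε (cyc γ) (det γ) (mat γ)
  rep : Γ → W →ₗ[ℂ] W

section

variable {N : ℕ} {I : Type} [Fintype I] [DecidableEq I] {S : LocalSystems N I}
  {ε : Letter S.labels → ℂ} {W : Type} [AddCommGroup W] [Module ℂ W]

/-- The Tate classes: the tensors with values in `W` which are invariant under the group `D` and
under the Galois group. -/
structure IsTateTensor (G : GaloisModule S ε W) {s : ℕ} (x : (Fin s → Letter S.labels) → W) :
    Prop where
  inv : ∀ g, InD ε g → actW g x = x
  fixed : ∀ γ w, G.rep γ (actW (G.mat γ) x w) = x w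

/-- The Galois group acts on `z` by the inverse of the character of a product of `p` pairings and of the
determinants of the `V_i`, `i = μ j`. -/
def IsPartner (G : GaloisModule S ε W) {l : ℕ} (μ : Fin l → I) (p : ℕ) (z : W) : Prop :=
  ∀ γ, ((∏ j, G.det γ (μ j)) * G.cyc γ ^ p) • G.rep γ z = z

/-- `z` is a Tate class on `Z` (with the appropriate twist: `s` is even, and the Galois group acts
by `cyc ^ (- s / 2)`). -/
def IsTateClass (G : GaloisModule S ε W) (s : ℕ) (z : W) : Prop :=
  ∃ m, s = 2 * m ∧ ∀ γ, G.cyc γ ^ m • G.rep γ z = z

/-- Products of determinants whose exponents satisfy `P` have as character a power of the cyclotomic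
character. -/
def DetsAreTate (G : GaloisModule S ε W) (P : Multiset (ZMod N) → Prop) : Prop :=
  ∀ (l : ℕ) (μ : Fin l → I) (m : ℕ), P (exAll S.labels μ) → ∑ j, S.dim (μ j) = 2 * m →
    ∀ γ, ∏ j, G.det γ (μ j) = G.cyc γ ^ m

/-- Products of determinants and pairings have partners in `W` only if the infinity type of their
character, given by the numbers `offset`, is trivial. -/
def NoCM (G : GaloisModule S ε W) : Prop :=
  ∀ (l : ℕ) (μ : Fin l → I) (p : ℕ) (z : W), z ≠ 0 → IsPartner G μ p z →
    ∀ t : (ZMod N)ˣ, offset (t : ZMod N) (exAll S.labels μ) = 0

/-- The members of an algebraic line. -/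
def IsAlgebraic (u : Multiset (ZMod N)) : Prop := u = 0 ∨ AlgebraicLine N u

omit [Fintype I] [DecidableEq I] in
lemma even_dims {l : ℕ} (μ : Fin l → I) (h : Even (Multiset.card (exAll S.labels μ))) :
    ∃ m, ∑ j, S.dim (μ j) = 2 * m := by
  have h1 : ((∑ j, S.dim (μ j) : ℕ) : ℤ) = Multiset.card (exAll S.labels μ) +
      2 * ∑ j, (((S.genus (μ j) : ℤ) - 1) * S.rank (μ j) + S.inv (μ j)) := by
    rw [exAll_card]
    push_cast
    rw [Finset.mul_sum, ← Finset.sum_add_distrib]
    exact Finset.sum_congr rfl fun j _ => S.dim_eq (μ j)
  have h2 : Even (∑ j, S.dim (μ j)) := by
    rw [← Int.even_coe_nat, h1]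
    exact ((Int.even_coe_nat _).mpr h).add (even_two_mul _)
  obtain ⟨m, hm⟩ := h2
  exact ⟨m, by omega⟩

end

/-- **The Tate conjecture for the products of an arbitrary variety with powers of curves.** -/
theorem result (N : ℕ) [NeZero N] (I : Type) [Fintype I] [DecidableEq I] (S : LocalSystems N I)
    (ε : Letter S.labels → ℂ) (hε : ∀ x : Letter S.labels, ¬ S.alt x.1 = true → ε (dual x) = -ε x)
    (hε0 : ∀ x, ε x ≠ 0) (W : Type) [AddCommGroup W] [Module ℂ W] (G : GaloisModule S ε W)
    (s : ℕ) (x : (Fin s → Letter S.labels) → W) (hx : IsTateTensor G x) :
    x ∈ Submodule.span ℂ {y | ∃ (l p : ℕ) (μ : Fin l → I) (ν : Fin p → I)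
      (e : (Σ j : Fin l, Fin (S.labels.dim (μ j))) ⊕ (Fin p × Fin 2) ≃ Fin s) (z : W),
        IsPartner G μ p z ∧ y = fun w => prodOf ε μ ν e w • z} ∧
    ((∀ i, Balanced (S.ex i)) → DetsAreTate G Balanced →
      x ∈ spanZ (fun _ μ z => Balanced (exAll S.labels μ) ∧ IsTateClass G s z) ε (Fin s)) ∧
    (NoCM G → Tame S s → DetsAreTate G IsAlgebraic →
      x ∈ spanZ (fun _ μ z => IsAlgebraic (exAll S.labels μ) ∧ IsTateClass G s z) ε (Fin s)) := by
  obtain ⟨n, d, z, -, hpos, hxz, hz⟩ := fixed_coords (Λ := S.labels) hε hε0 hx.inv G.sim
    (rep := G.rep) hx.fixed
  have hcard : ∀ j, (∑ i, S.dim ((d j).μ i)) + 2 * (d j).p = s := fun j => by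
    have h1 := (d j).card
    rw [Fintype.card_fin] at h1
    exact h1
  have htate : ∀ j m, ∑ i, S.dim ((d j).μ i) = 2 * m →
      (∀ γ, ∏ i, G.det γ ((d j).μ i) = G.cyc γ ^ m) → IsTateClass G s (z j) := by
    intro j m hm hdet
    refine ⟨m + (d j).p, ?_, fun γ => ?_⟩
    · have := hcard j
      omega
    · rw [pow_add, ← hdet γ]
      exact hz j γ
  refine ⟨?_, fun hbal hT => ?_, fun hNo htame hT => ?_⟩
  · rw [hxz]
    exact Submodule.sum_mem _ fun j _ => Submodule.subset_span
      ⟨(d j).l, (d j).p, (d j).μ, (d j).ν, (d j).e, z j, hz j, rfl⟩
  · rw [hxz]
    refine sum_mem_spanZ d z fun j => ?_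
    have hb : Balanced (exAll S.labels (d j).μ) := Balanced.sum _ _ fun i => hbal ((d j).μ i)
    refine ⟨hb, ?_⟩
    obtain ⟨m, hm⟩ := even_dims (S := S) (d j).μ (by
      obtain ⟨v, hv⟩ := hb
      rw [hv, Multiset.card_add, Multiset.card_map]
      exact ⟨_, rfl⟩)
    exact htate j m hm (hT _ _ m hb hm)
  · rw [hxz]
    refine Submodule.sum_mem _ fun j _ => ?_
    by_cases hz0 : z j = 0
    · rw [hz0]
      have h1 : (fun w => (d j).val ε w • (0 : W)) = 0 := by funext w; simp
      rw [h1]
      exact Submodule.zero_mem _
    have hoff := hNo _ _ (d j).p (z j) hz0 (hz j)
    have hsum : ∑ i, S.dim ((d j).μ i) ≤ s := by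
      have := hcard j
      omega
    have hline := algebraicLine_of_offset htame (hpos j) hsum hoff
    have heven : Even (Multiset.card (exAll S.labels (d j).μ)) := by
      by_cases hL : exAll S.labels (d j).μ = 0
      · rw [hL]
        exact ⟨0, rfl⟩
      · exact (isHodge_of_offset (exAll_zero_notMem (Λ := S.labels) _)
          (exAll_sum_zero (Λ := S.labels) _) hoff).2.1
    obtain ⟨m, hm⟩ := even_dims (S := S) (d j).μ heven
    exact Submodule.subset_span ⟨_, _, _, _, (d j).e, z j,
      ⟨hline, htate j m hm (hT _ _ m hline hm)⟩, rfl⟩

end Pool.Agent.Results.MP_40dc3c_ag.CoversTimesSingular
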