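import Pool.Agent.Q45.ST.Fin
import Pool.Agent.Q45.ST.Dn
import Pool.Agent.Q45.TW.Crt
import Pool.Agent.Q45.TW.PicI

/-!
# The Tate conjecture at `2` and the stability of the Mordell-Weil group over all ramified towers

Let `k` be a field of characteristic different from `2`, `g` a monic polynomial over `k` of odd degree,
`c₁, …, c_m` elements of `k`, `K₀ = k(t)(y₁, …, y_m)`, `y_j ^ 2 = t + c_j`, and let `J` be the Jacobian
of the curve `w ^ 2 = g(x) + t`. The field `K` is obtained from `K₀` by successive quadratic extensions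
`K' ⊂ K'(√D)`, and each of them is ramified over the affine `t`-line (for example `K = K₀(√b)` for a
polynomial `b(t)` prime to the polynomials `t + c_j`); the genus of `K` is not bounded.

(1) Let `g' ≠ 0` and let the conditions of independence and of Rédei hold for `g` and the `c_j`.
Suppose that each of the extensions `K'(√D) / K'` is ramified (over the affine line) only over inert
places, given by irreducible polynomials `b(t)` such that `b(-g(x))` is irreducible and separable, and
over at least one good place: `b` does not divide the `t + c_j`, and a monic divisor `a(x)` of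
`∏ (g - c_j)` which is an element of the residue field of `b(t)` times a square in the residue field of
`b(-g(x))` is a product of some of the `g - c_j`. Then the Tate conjecture for divisors at `2` holds
for the surface `w ^ 2 = g(x) + t` over the curve with the function field `K`; the `2`-primary part
of the Tate-Shafarevich group of `J` over `K` is zero; and the divisors `G(x) = 0`, `w = y_j`, for the
monic irreducible factors `G` of the `g - c_j`, with one factor omitted for each `j`, are a basis of
`J(K)` at `2`: it is the same basis for all the fields `K`, the group `J(K)` does not grow at `2`.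

(2) Let `k` be a number field, `n ≥ 5` odd and `B` a finite set of irreducible polynomials over `k`.
For `100%` of the integer vectors `(a₁, …, a_n, x₁, …, x_r, c₁, …, c_m)` the following holds for the
polynomial `g(x) = x ^ n + a_n x ^ (n - 1) + … + a₁`, for `K₀ = k(t)(y₁, …, y_r, z₁, …, z_m)`,
`y_i ^ 2 = t + g(x_i)`, `z_j ^ 2 = t + c_j`, and for ALL the (infinitely many) fields `K` which are
obtained from `K₀` by successive quadratic extensions, each ramified over the affine `t`-line and only
over places in `B`: the Tate conjecture at `2` holds, the `2`-primary part of the Tate-Shafarevich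
group of `J` over `K` is zero, and the points `(x_i, y_i)` are a basis of `J(K)` at `2`.
-/

set_option autoImplicit false
set_option linter.all false

open Polynomial IsDedekindDomain Filter Topology
open scoped Classical

namespace Pool.Agent.Results.MP_40dc3c_ag.StabilityOverRamifiedTowers

open Pool.Agent.Y160.SL
open Pool.Agent.TH115.GD (incl Sep Comp)

/-- The elements of `k` as elements of `K`. -/
noncomputable def const (k K : Type) [Field k] [Field K] [Algebra k[X] K] : k →+* K :=
  (algebraMap k[X] K).comp C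

/-- The polynomial `f(x) = g(x) + t` over `K`, where `t` is the variable of `k[t]`. -/
noncomputable def fPoly {k : Type} [Field k] (g : k[X]) (K : Type) [Field K] [Algebra k[X] K] : K[X] :=
  g.map (const k K) + C (algebraMap k[X] K X)

/-- `K` is generated over `k(t)` by the elements `y_i`, `y_i ^ 2 = t + c_i`, and `t` is transcendental
over `k`. -/
structure IsFunctionField {k : Type} [Field k] {ι : Type} (c : ι → k) (K : Type)
    [Field K] [Algebra k[X] K] (y : ι → K) : Prop where
  inj : Function.Injective (algebraMap k[X] K)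
  sq : ∀ i, y i ^ 2 = algebraMap k[X] K (X + C (c i))
  gen : Subfield.closure (Set.range (algebraMap k[X] K) ∪ Set.range y) = ⊤

/-- The field `K` is the extension `K'(s)`, `s ^ 2 = D`, of degree two. -/
structure IsQuadratic {K' K : Type} [Field K'] [Field K] [Algebra K' K] (D : K') (s : K) : Prop where
  sq : s ^ 2 = algebraMap K' K D
  not_mem : ∀ x : K', algebraMap K' K x ≠ s
  gen : IntermediateField.adjoin K' {s} = ⊤

/-- The valuation of `D` at the maximal ideal `v` is odd (the value group is multiplicative), so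
`K'(√D) / K'` is ramified at `v`. -/
def IsOddAt {A K' : Type} [CommRing A] [IsDedekindDomain A] [Field K'] [Algebra A K']
    [IsFractionRing A K'] (v : HeightOneSpectrum A) (D : K') : Prop := ¬ IsSquare (v.valuation K' D)

/-- Let `A` be the integral closure of `k[t]` in `K'`. Each maximal ideal of `A` at which the valuation
of `D` is odd lies over a polynomial in `S`, and at least one of them lies over a polynomial in `S'`. -/
def IsBranched {k : Type} [Field k] (S S' : Set k[X]) (K' : Type) [Field K'] [Algebra k[X] K']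
    (D : K') : Prop :=
  ∀ (A : Type) [CommRing A] [IsDedekindDomain A] [Algebra k[X] A] [Algebra A K']
    [IsScalarTower k[X] A K'] [IsFractionRing A K'] [IsIntegralClosure A k[X] K'],
    (∀ v : HeightOneSpectrum A, IsOddAt v D → ∃ b ∈ S, algebraMap k[X] A b ∈ v.asIdeal) ∧
      ∃ v : HeightOneSpectrum A, IsOddAt v D ∧ ∃ b ∈ S', algebraMap k[X] A b ∈ v.asIdeal

/-- The fields `K` (with the elements `y i`) which are obtained from the function field `K₀` of the
curve `y_i ^ 2 = t + c_i` by successive quadratic extensions: each of them is ramified, over the affine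
`t`-line, only over places in `S` and at least at one place over `S'`. -/
inductive IsTower {k : Type} [Field k] {ι : Type} (c : ι → k) (S S' : Set k[X]) :
    (K : Type) → [Field K] → [Algebra k[X] K] → (ι → K) → Prop
  | base (K : Type) [Field K] [Algebra k[X] K] (y : ι → K) (h : IsFunctionField c K y) :
      IsTower c S S' K y
  | step (K' K : Type) [Field K'] [Algebra k[X] K'] [Field K] [Algebra k[X] K] [Algebra K' K]
      [IsScalarTower k[X] K' K] (y : ι → K') (D : K') (s : K) (h : IsTower c S S' K' y)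
      (hq : IsQuadratic D s) (hb : IsBranched S S' K' D) :
      IsTower c S S' K (fun i => algebraMap K' K (y i))

/-- The field `F` is the extension `k' K` of `K` by the constants `k'`. -/
structure IsConstantExtension (k k' K F : Type) [Field k] [Field k'] [Algebra k k'] [Field K]
    [Algebra k[X] K] [Field F] [Algebra k'[X] F] [Algebra K F] : Prop where
  inj : Function.Injective (algebraMap k'[X] F)
  comp : ∀ p : k[X], algebraMap K F (algebraMap k[X] K p) =
    algebraMap k'[X] F (p.map (algebraMap k k'))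
  gen : IntermediateField.adjoin K (Set.range ((algebraMap k'[X] F).comp C)) = ⊤

/-- The restriction of the cochain `c` to the completion of `F` at every maximal ideal of the Dedekind
domain `B` with field of fractions `F` is a coboundary. -/
def IsSelmer {K F : Type} [Field K] [Field F] [Algebra K F] (B : Type) [CommRing B]
    [IsDedekindDomain B] [Algebra B F] [IsFractionRing B F] (f : K[X])
    (c : (Sep F ≃ₐ[F] Sep F) → Jac 2 f (Sep F)) : Prop :=
  ∀ v : HeightOneSpectrum B, LocTriv 2 f (Comp B F v) (Sep (Comp B F v)) c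

/-- The class of `c`, with values in `T₂ J`, comes from `J(K)`: for every `n` there are `P` in `J(K)` and
`R` in `J(Sep F)` with `2 ^ n R = P` and `c n σ = σ R - R` for all `σ`. -/
def ComesFromK {K F : Type} [Field K] [Field F] [Algebra K F] (f : K[X])
    (c : ℕ → (Sep F ≃ₐ[F] Sep F) → Jac 2 f (Sep F)) : Prop :=
  ∀ n, ∃ (P : Jac 2 f K) (R : Jac 2 f (Sep F)), 2 ^ n • R = jm 2 f (incl K K (Sep F)) P ∧
    IsCobOf 2 f (c n) R

/-- If `c` is a cocycle of `Gal(Sep F / F)` with values in `T₂ J` which is locally trivial at the maximal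
ideals of `B`, and the class of `c` in `H ^ 1 (F, V₂ J)` is fixed by the Galois group of `K`, then the
class of `c` comes from `J(K)`. -/
def TateAtTwo {K F : Type} [Field K] [Field F] [Algebra K F] (B : Type) [CommRing B]
    [IsDedekindDomain B] [Algebra B F] [IsFractionRing B F] (f : K[X]) : Prop :=
  ∀ c : ℕ → (Sep F ≃ₐ[F] Sep F) → Jac 2 f (Sep F), IsTC 2 2 f c →
    (∀ n, IsSelmer B f (c n)) → IsInv 2 2 f c → ComesFromK f c

/-- The Tate conjecture at `2` for the surface with generic fibre `w ^ 2 = f(x)` over `K`, for every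
Galois extension `k'` of `k` (for example the separable closure of `k`), `F = k' K` and `B` the integral
closure of `k'[t]` in `F`: only the places of `F` over the affine `t`-line are used. -/
def TateConj (k : Type) {K : Type} [Field k] [Field K] [Algebra k[X] K] (f : K[X]) : Prop :=
  ∀ (k' F B : Type) [Field k'] [Algebra k k'] [IsGalois k k'] [Field F] [Algebra k'[X] F]
    [Algebra K F] [CommRing B] [IsDedekindDomain B] [Algebra B F] [IsFractionRing B F]
    [Algebra k'[X] B] [IsScalarTower k'[X] B F] [IsIntegralClosure B k'[X] F],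
    IsConstantExtension k k' K F → TateAtTwo (F := F) B f

/-- The `2`-primary part of the Tate-Shafarevich group of `J` over `K` is zero, even with respect to the
maximal ideals of the integral closure `A` of `k[t]` in `K` only. -/
def ShaZero (k : Type) {K : Type} [Field k] [Field K] [Algebra k[X] K] (f : K[X]) : Prop :=
  ∀ (A : Type) [CommRing A] [IsDedekindDomain A] [Algebra A K] [IsFractionRing A K]
    [Algebra k[X] A] [IsScalarTower k[X] A K] [IsIntegralClosure A k[X] K], ShaTriv 2 2 A f

/-- The ideal of the divisor `u(x) = 0`, `w = v(x)` in the coordinate ring of the affine curve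
`w ^ 2 = f(x)`. -/
noncomputable def divIdeal {K : Type} [Field K] (f u v : K[X]) : Ideal (CoordRing 2 f) :=
  Ideal.span {ofPoly 2 f u, wfun 2 f - ofPoly 2 f v}

/-- The ideal `I` of `R` is an invertible module, and `P` is its class in the Picard group. -/
def IsIdealClass {R : Type} [CommRing R] (P : Additive (CommRing.Pic R)) (I : Ideal R) : Prop :=
  ∃ _ : Module.Invertible R I, P = Additive.ofMul (CommRing.Pic.mk R I)

/-- The element `P` of `J(K) = Pic(K[x, w] / (w ^ 2 - f(x)))` is the class of the ideal of the divisor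
`u(x) = 0`, `w = v(x)`. -/
def IsDivisor {K : Type} [Field K] (f u v : K[X]) (P : Jac 2 f K) : Prop :=
  IsIdealClass (R := CoordRing 2 (f.map (algebraMap K K))) P
    (divIdeal (f.map (algebraMap K K)) u v)

/-- The elements `D i` are linearly independent over `ℤ`, and they generate `M` modulo `2 ^ N` for all
`N`. -/
def IsBasisAtTwo {ι M : Type} [AddCommGroup M] (D : ι → M) : Prop :=
  LinearIndependent ℤ D ∧
    ∀ (N : ℕ) (x : M), ∃ y : M, x - 2 ^ N • y ∈ AddSubgroup.closure (Set.range D)

/-- The polynomial `p` is a square modulo `G`. -/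
def IsSquareMod {k : Type} [Field k] (G p : k[X]) : Prop := ∃ w : k[X], G ∣ p - w ^ 2

/-- The product of the `c_i - c_s` for the `i` in `I`. -/
noncomputable def diffProd {k : Type} [Field k] {m : ℕ} (c : Fin m → k) (s : Fin m)
    (I : Finset (Fin m)) : k := ∏ i ∈ I, (c i - c s)

/-- The product of the polynomials `g - c_i` for the `i` in `I`. -/
noncomputable def polyProd {k : Type} [Field k] {m : ℕ} (g : k[X]) (c : Fin m → k)
    (I : Finset (Fin m)) : k[X] := ∏ i ∈ I, (g - C (c i))

/-- For each irreducible factor `G` of `g - c_s`, a product of different `c_i - c_s`, `i < s`, is not a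
square modulo `G`, the empty product excepted. -/
def Independent {k : Type} [Field k] {m : ℕ} (g : k[X]) (c : Fin m → k) (s : Fin m) : Prop :=
  ∀ G : k[X], G.Monic → Irreducible G → G ∣ g - C (c s) → ∀ I : Finset (Fin m), I ≠ ∅ →
    (∀ i ∈ I, i < s) → ¬ IsSquareMod G (C (diffProd c s I))

/-- The condition of Rédei: if `a` is a monic divisor of the product of some of the `g - c_i`, `i < s`,
and for each irreducible factor `G` of `g - c_s` the product of `(-1) ^ (deg a) a` and some of the
`c_i - c_s`, `i < s`, is a square modulo `G`, then `a` is a product of some of the `g - c_i`, `i < s`. -/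
def Redei {k : Type} [Field k] {m : ℕ} (g : k[X]) (c : Fin m → k) (s : Fin m) : Prop :=
  ∀ a : k[X], a.Monic → (∃ J : Finset (Fin m), (∀ i ∈ J, i < s) ∧ a ∣ polyProd g c J) →
    (∀ G : k[X], G.Monic → Irreducible G → G ∣ g - C (c s) → ∃ I : Finset (Fin m),
      (∀ i ∈ I, i < s) ∧ IsSquareMod G ((-1) ^ a.natDegree * a * C (diffProd c s I))) →
    ∃ I : Finset (Fin m), (∀ i ∈ I, i < s) ∧ a = polyProd g c I

/-- The conditions for all `c_s`: the polynomial `g - c_s` is separable, and the conditions of
independence and of Rédei hold. -/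
def Admissible {k : Type} [Field k] {m : ℕ} (g : k[X]) (c : Fin m → k) : Prop :=
  ∀ s, (g - C (c s)).Separable ∧ Independent g c s ∧ Redei g c s

/-- The inert places: the irreducible polynomials `b(t)` such that `b(-g(x))` is irreducible and
separable. -/
def inertSet {k : Type} [Field k] (g : k[X]) : Set k[X] :=
  {b | Irreducible b ∧ Irreducible (b.comp (-g)) ∧ (b.comp (-g)).Separable}

/-- The good places: `b` is inert and does not divide the `t + c_j`; and if a monic divisor `a(x)` of
`∏ (g - c_j)` is, modulo `b(-g(x))`, the product of an element `d(-g(x))` of the residue field of `b(t)`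
and a square, then `a` is a product of some of the `g - c_j`. -/
def goodSet {k : Type} [Field k] {m : ℕ} (g : k[X]) (c : Fin m → k) : Set k[X] :=
  {b | b ∈ inertSet g ∧ (∀ j, ¬ b ∣ X + C (c j)) ∧
    ∀ a : k[X], a.Monic → a ∣ polyProd g c Finset.univ →
      (∃ d h : k[X], b.comp (-g) ∣ a - d.comp (-g) * h ^ 2) → ∃ I : Finset (Fin m), a = polyProd g c I}

/-- The pairs `Q i = (j, G)` are all the pairs of an index `j` and a monic irreducible factor `G` of
`g - c_j`, different from the omitted factor `G₀ j`. -/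
structure IsFactorList {k : Type} [Field k] {m : ℕ} (g : k[X]) (c : Fin m → k) {N : ℕ}
    (Q : Fin N → Fin m × k[X]) (G₀ : Fin m → k[X]) : Prop where
  omitted : ∀ j, (G₀ j).Monic ∧ Irreducible (G₀ j) ∧ G₀ j ∣ g - C (c j)
  mem : ∀ i, (Q i).2.Monic ∧ Irreducible (Q i).2 ∧ (Q i).2 ∣ g - C (c (Q i).1) ∧
    (Q i).2 ≠ G₀ (Q i).1
  inj : Function.Injective Q
  all : ∀ (j : Fin m) (G : k[X]), G.Monic → Irreducible G → G ∣ g - C (c j) → G ≠ G₀ j →
    ∃ i, Q i = (j, G)

/-- (1) All fields. -/
def Criterion : Prop :=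
  ∀ (k : Type) [Field k] (g : k[X]) (m : ℕ) (c : Fin m → k), (2 : k) ≠ 0 → g.Monic →
    Odd g.natDegree → derivative g ≠ 0 → Admissible g c →
    ∀ (K : Type) [Field K] [Algebra k[X] K] (y : Fin m → K),
      IsTower c (inertSet g) (goodSet g c) K y →
      TateConj k (fPoly g K) ∧ ShaZero k (fPoly g K) ∧
      ∀ (N : ℕ) (Q : Fin N → Fin m × k[X]) (G₀ : Fin m → k[X]), IsFactorList g c Q G₀ →
        ∃ D : Fin N → Jac 2 (fPoly g K) K, IsBasisAtTwo D ∧
          ∀ i, IsDivisor (fPoly g K) ((Q i).2.map (const k K)) (C (y (Q i).1)) (D i)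

/-- The polynomial `x ^ n + ∑ v_i x ^ i`, where `i < n` and `v` is an integer vector, over `k`. -/
noncomputable def gOf (k : Type) [Field k] {n r m : ℕ} (v : Fin (n + (r + m)) → ℤ) : k[X] :=
  X ^ n + ∑ i : Fin n, C ((v (Fin.castAdd (r + m) i) : ℤ) : k) * X ^ (i : ℕ)

/-- The element `x_i`, `i < r`, given by the vector `v`. -/
def xOf (k : Type) [Field k] {n r m : ℕ} (v : Fin (n + (r + m)) → ℤ) (i : Fin r) : k :=
  ((v (Fin.natAdd n (Fin.castAdd m i)) : ℤ) : k)

/-- The elements `g(x_i)`, `i < r`, and `c_j`, `j < m`, given by the vector `v`. -/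
noncomputable def cOf (k : Type) [Field k] {n r m : ℕ} (v : Fin (n + (r + m)) → ℤ) :
    Fin r ⊕ Fin m → k :=
  Sum.elim (fun i => (gOf k v).eval (xOf k v i))
    fun j => ((v (Fin.natAdd n (Fin.natAdd r j)) : ℤ) : k)

/-- The conclusions for all the towers `K` over `K₀ = k(t)(y₁, …, y_r, z₁, …, z_m)`,
`y_i ^ 2 = t + g(x_i)`, `z_j ^ 2 = t + c_j`, where the polynomial `g`, the `x_i` and the `c_j` are given
by the integer vector `v`, and all the branching is over `B`. -/
def HoldsFor (k : Type) [Field k] (B : Set k[X]) {n r m : ℕ} (v : Fin (n + (r + m)) → ℤ) : Prop :=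
  ∀ (K : Type) [Field K] [Algebra k[X] K] (y : Fin r ⊕ Fin m → K), IsTower (cOf k v) B B K y →
    TateConj k (fPoly (gOf k v) K) ∧ ShaZero k (fPoly (gOf k v) K) ∧
      ∃ P : Fin r → Jac 2 (fPoly (gOf k v) K) K, IsBasisAtTwo P ∧
        ∀ i, IsDivisor (fPoly (gOf k v) K) (X - C (const k K (xOf k v i))) (C (y (Sum.inl i))) (P i)

/-- (2) Number fields: the set of the exceptions has density zero. -/
def NumberFields : Prop :=
  ∀ (k : Type) [Field k] [NumberField k] (n r m : ℕ), 5 ≤ n → Odd n → ∀ B : Finset k[X],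
    (∀ b ∈ B, Irreducible b) →
    Tendsto (fun H : ℕ => (({v : Fin (n + (r + m)) → ℤ | (∀ i, |v i| ≤ (H : ℤ)) ∧
      ¬ HoldsFor k (B : Set k[X]) v}.ncard : ℕ) : ℝ) / (2 * (H : ℝ) + 1) ^ (n + (r + m))) atTop (𝓝 0)

theorem tate_of {K F : Type} [Field K] [Field F] [Algebra K F] {B : Type} [CommRing B]
    [IsDedekindDomain B] [Algebra B F] [IsFractionRing B F] {f : K[X]}
    (h : Pool.Agent.Q45.GP.TateOver (F := F) 2 2 B f) : TateAtTwo (F := F) B f := by
  intro c hc hl hi n
  exact h c ⟨fun n => ⟨(hc.coc n).lc, (hc.coc n).mul⟩, hc.zero, hc.step⟩ hl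
    (fun τ => by
      obtain ⟨m, Q, hQ, hm⟩ := hi τ
      exact ⟨m, Q, ⟨hQ.zero, hQ.step⟩, hm⟩) n

theorem isSquare_iff (x : WithZero (Multiplicative ℤ)) :
    IsSquare x ↔ Pool.Agent.Y160.SE.IsPw 2 x := by
  constructor
  · rintro ⟨z, rfl⟩
    exact ⟨z, (sq z).symm⟩
  · rintro ⟨z, rfl⟩
    exact ⟨z, sq z⟩

theorem yk_map {k K' K ι : Type} [Field k] [Field K'] [Field K] [Algebra K' K] (c : ι → k)
    (y : ι → K') : Pool.Agent.Q45.TW.yk c (fun i => algebraMap K' K (y i)) =
      fun a => algebraMap K' K (Pool.Agent.Q45.TW.yk c y a) := by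
  funext a
  unfold Pool.Agent.Q45.TW.yk
  split_ifs
  · rfl
  · rw [map_zero]

/-- The properties of the fields in the towers. -/
theorem tower {k : Type} [Field k] {ι : Type} {g : k[X]} {c : ι → k} {S S' : Set k[X]}
    (h2 : (2 : k) ≠ 0) (hg : g.Monic) (hodd : Odd g.natDegree) (hd : derivative g ≠ 0)
    {l : List ι} (hl : ∀ i, i ∈ l) (hc : Function.Injective c)
    (hG : Pool.Agent.Q45.TW.GoodL g (l.map c))
    (hS : ∀ b ∈ S, Irreducible b ∧ Irreducible (b.comp (-g)) ∧ (b.comp (-g)).Separable)
    (hS' : ∀ b ∈ S', Pool.Agent.Q45.ST.GoodAt g (l.map c) b) {K : Type} [iF : Field K]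
    [iA : Algebra k[X] K] {y : ι → K} (hT : IsTower c S S' K y) :
    Pool.Agent.Q45.ST.TwP g (l.map c) K (Pool.Agent.Q45.TW.yk c y) := by
  induction hT with
  | base K y h =>
    exact Pool.Agent.Q45.ST.TwP.base h2 hg hodd hd hG
      ((⟨h.inj, h.sq, h.gen⟩ : Pool.Agent.Q45.TW.IsCov k c K y).base hc hl)
  | step K' K y D s h hq hb ih =>
    rw [yk_map]
    have h2' : (2 : K') ≠ 0 := by
      intro h0
      apply h2
      apply (Function.Injective.comp ih.inj C_injective : Function.Injective fun x : k =>
        algebraMap k[X] K' (C x))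
      show algebraMap k[X] K' (C 2) = algebraMap k[X] K' (C 0)
      rw [C_0, map_zero, show (C (2 : k) : k[X]) = 2 from rfl, map_ofNat]
      exact h0
    refine Pool.Agent.Q45.ST.TwP.step h2 hg hodd hd (D := D) (s := s)
      ⟨h2', hq.sq, hq.not_mem, hq.gen⟩ ?_ ?_ ih
    · intro A _ _ _ _ _ _ _ v hv
      obtain ⟨b, hbS, hbv⟩ := (hb A).1 v fun h1 => hv ((isSquare_iff _).1 h1)
      obtain ⟨a1, a2, a3⟩ := hS b hbS
      exact ⟨b, a1, a2, a3, hbv⟩
    · intro A _ _ _ _ _ _ _
      obtain ⟨v, hv, b, hbS, hbv⟩ := (hb A).2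
      exact ⟨v, b, fun h1 => hv ((isSquare_iff _).2 h1), hS' b hbS, hbv⟩

theorem gOf_eq (k : Type) [Field k] {n r m : ℕ} (v : Fin (n + (r + m)) → ℤ) :
    gOf k v = Pool.Agent.Q45.TD.gK (Pool.Agent.Q45.TD.vk k v) := rfl

theorem cOf_eq (k : Type) [Field k] {n r m : ℕ} (v : Fin (n + (r + m)) → ℤ) :
    cOf k v = Pool.Agent.Q45.TD.cc (Pool.Agent.Q45.TD.vk k v) := by
  funext i
  rcases i with i | j
  · rw [Pool.Agent.Q45.TD.cc_inl]
    rfl
  · rw [Pool.Agent.Q45.TD.cc_inr]
    rfl

/-- The Tate conjecture and the Tate-Shafarevich group. -/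
theorem concl {k : Type} [Field k] {g : k[X]} {cs : List k} {K : Type} [Field K] [Algebra k[X] K]
    {y : k → K} (h2 : (2 : k) ≠ 0) (hg : g.Monic) (hodd : Odd g.natDegree) (hd : derivative g ≠ 0)
    (hsep : ∀ c ∈ cs, (g - C c).Separable) (hT : Pool.Agent.Q45.ST.TwP g cs K y) :
    TateConj k (fPoly g K) ∧ ShaZero k (fPoly g K) := by
  refine ⟨?_, ?_⟩
  · intro k' F B _ _ _ _ _ _ _ _ _ _ _ _ _ hF
    exact tate_of (hT.tate h2 hg hodd hd hsep (k' := k') (A' := B) ⟨hF.inj, hF.comp, hF.gen⟩)
  · intro A _ _ _ _ _ _ _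
    obtain ⟨-, h1, -⟩ := hT.sha_gen (A := A) h2 hg hodd hd hsep
    exact shaTriv_of h1

/-- (1) The criterion. (2) Number fields. -/
theorem result : Criterion ∧ NumberFields := by
  refine ⟨?_, ?_⟩
  · intro k _ g m c h2 hg hodd hd hadm K _ _ y hT
    have hstep : ∀ s, Pool.Agent.Q45.TW.StepF g c s := fun s => ⟨(hadm s).1,
      fun G h1 h3 h4 I h5 h6 w hw => (hadm s).2.1 G h1 h3 h4 I h5 h6 ⟨w, hw⟩,
      fun a ha had hc => (hadm s).2.2 a ha ⟨_, fun i hi => (Finset.mem_filter.1 hi).2, had⟩
        fun G h1 h3 h4 => by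
          obtain ⟨I, w, h5, h6⟩ := hc G h1 h3 h4
          exact ⟨I, h5, w, h6⟩⟩
    have hG := Pool.Agent.Q45.TW.goodF hg hodd hstep m le_rfl
    have hall : ∀ i, i ∈ Pool.Agent.Q45.TW.Lm m m le_rfl := fun i =>
      (Pool.Agent.Q45.TW.mem_Lm i m _).2 i.2
    have hnd : (Pool.Agent.Q45.TW.Lm m m le_rfl).Nodup := Pool.Agent.Q45.TW.nodup_Lm m _
    have hc : Function.Injective c := fun i j hij =>
      List.inj_on_of_nodup_map hG.nodup (hall i) (hall j) hij
    have hsep : ∀ a ∈ (Pool.Agent.Q45.TW.Lm m m le_rfl).map c, (g - C a).Separable := by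
      intro a ha
      obtain ⟨i, -, rfl⟩ := List.mem_map.1 ha
      exact (hadm i).1
    have hprod : (((Pool.Agent.Q45.TW.Lm m m le_rfl).map c).map fun a => g - C a).prod =
        polyProd g c Finset.univ := by
      rw [List.map_map]
      exact Pool.Agent.Q45.TW.prod_list_all hnd
        (fun i => ⟨fun _ => hall i, fun _ => Finset.mem_univ i⟩) _
    have hTw := tower h2 hg hodd hd hall hc hG (fun b hb => hb) (fun b hb => ⟨hb.1.1, hb.1.2.1,
      hb.1.2.2, fun a ha => by
        obtain ⟨i, -, rfl⟩ := List.mem_map.1 ha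
        exact hb.2.1 i, fun a ha had d h hdv => by
        obtain ⟨I, hI⟩ := hb.2.2 a ha (by rw [← hprod]; exact had) ⟨d, h, hdv⟩
        obtain ⟨l', hl', hlp⟩ := Pool.Agent.Q45.TW.list_of_fin hnd I (fun i _ => hall i)
        refine ⟨l'.map c, hl'.map c, ?_⟩
        rw [List.map_map, hI]
        exact (hlp _).symm⟩) hT
    obtain ⟨t1, t2⟩ := concl h2 hg hodd hd hsep hTw
    refine ⟨t1, t2, fun N Q G₀ hQ => ?_⟩
    obtain ⟨G1, hG0⟩ : ∃ G1 : k → k[X], ∀ i, G1 (c i) = G₀ i := by
      refine ⟨fun a => if h : ∃ i, c i = a then G₀ h.choose else 0, fun i => ?_⟩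
      have h : ∃ j, c j = c i := ⟨i, rfl⟩
      show (if h : ∃ j, c j = c i then G₀ h.choose else 0) = G₀ i
      rw [dif_pos h]
      congr 1
      exact hc h.choose_spec
    have hL : Pool.Agent.Q45.TW.IsList g ((Pool.Agent.Q45.TW.Lm m m le_rfl).map c)
        (fun i => (c (Q i).1, (Q i).2)) G1 := by
      refine ⟨fun i => ⟨List.mem_map_of_mem (hall _), (hQ.mem i).1, (hQ.mem i).2.1,
        (hQ.mem i).2.2.1, ?_⟩, fun i j hij => ?_, fun a ha => ?_, fun a ha G h1 h3 h4 h5 => ?_⟩
      · rw [hG0]
        exact (hQ.mem i).2.2.2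
      · have e1 : c (Q i).1 = c (Q j).1 := congrArg Prod.fst hij
        have e3 : (Q i).2 = (Q j).2 := congrArg (fun z : k × k[X] => z.2) hij
        exact hQ.inj (Prod.ext (hc e1) e3)
      · obtain ⟨i, -, rfl⟩ := List.mem_map.1 ha
        rw [hG0]
        exact hQ.omitted i
      · obtain ⟨i, -, rfl⟩ := List.mem_map.1 ha
        rw [hG0] at h5
        obtain ⟨j, hj⟩ := hQ.all i G h1 h3 h4 h5
        exact ⟨j, by rw [hj]⟩
    refine ⟨_, hTw.basis h2 hg hodd hd hsep hL, fun i => ?_⟩
    have h1 := hTw.cls h2 hg hodd hd hsep (List.mem_map_of_mem (hall (Q i).1)) (hQ.mem i).1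
      (hQ.mem i).2.1 (hQ.mem i).2.2.1
    rw [Pool.Agent.Q45.TW.yk_eq hc] at h1
    exact h1
  · intro k _ _ n r m hn hodd B hB
    refine Q45.Tate.Zd.mono (S := {v | ¬ HoldsFor k (B : Set k[X]) v})
      (Pool.Agent.Q45.ST.zd_all (n := n) (r := r) (m := m) (by omega) hB) ?_
    intro v hv
    by_contra hex
    apply hv
    simp only [Set.mem_union, Set.mem_iUnion, Set.mem_setOf_eq, not_or, not_exists] at hex
    intro K _ _ y hT
    rw [cOf_eq] at hT
    have hD := Pool.Agent.Q45.TD.dens_data (k := k) (by omega) hodd hex.1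
    have hTw := tower hD.two hD.mon hD.odd hD.der hD.all hD.cinj hD.good (fun b hb => by
      have h1 := Pool.Agent.Q45.ST.goodAt_dens (k := k) (by omega) hodd hex.1 (hB b hb)
        (hex.2 ⟨b, hb⟩) hD.nod
      exact ⟨h1.irr, h1.inert, h1.sep⟩) (fun b hb =>
        Pool.Agent.Q45.ST.goodAt_dens (k := k) (by omega) hodd hex.1 (hB b hb)
        (hex.2 ⟨b, hb⟩) hD.nod) hT
    have hsep := hD.good.sep
    obtain ⟨t1, t2⟩ := concl hD.two hD.mon hD.odd hD.der (fun c hc => hsep c hc) hTw
    refine ⟨t1, t2, ?_⟩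
    obtain ⟨G0, hQ⟩ := Pool.Agent.Q45.TW.list_fac hD.mon hD.odd.pos
      (fun i _ j _ hij => hD.cinj hij) (fun i _ => hD.fac i) (fun i _ => hD.deg i) _ hD.inj
      (fun j => ⟨hD.all _, hD.pt j⟩) (fun i _ hi => hD.sur i hi)
      (l := (List.finRange r).map Sum.inl ++ (List.finRange m).map Sum.inr)
    refine ⟨_, hTw.basis hD.two hD.mon hD.odd hD.der (fun c hc => hsep c hc) hQ, fun i => ?_⟩
    have h1 := hTw.cls hD.two hD.mon hD.odd hD.der (fun c hc => hsep c hc)
      (hQ.mem i).1 (hQ.mem i).2.1 (hQ.mem i).2.2.1 (hQ.mem i).2.2.2.1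
    rw [Polynomial.map_sub, map_X, map_C, Pool.Agent.Q45.TW.yk_eq hD.cinj] at h1
    exact h1

end Pool.Agent.Results.MP_40dc3c_ag.StabilityOverRamifiedTowers
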